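import Pool.Agent.Run7.h49.JT.Iface

set_option autoImplicit false
set_option linter.unusedVariables false

namespace Pool.Agent.Run7.h56.JT

open Pool.Agent.R277.JT Run7.h49.JT Set Filter Topology

lemma mem_zero {y : ℕ → D Tree} {σ : ℕ → ℕ → Br} {u : ℕ → ℕ → ℝ} {I : ℕ → Finset ℕ}
    {k K : ℕ → ℕ} {ε : ℕ → ℝ} {M : ℝ} (h : Scheme y σ u I k K ε M) (t : ℕ) : 0 ∈ I t := by
  induction t using Nat.strong_induction_on with
  | _ t ih =>
    rcases Nat.eq_zero_or_pos t with h0 | h0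
    · rw [h0]; exact h.zero
    · exact h.Isub t h0 (ih (t / 2) (Nat.div_lt_self h0 (by norm_num)))

theorem prove_L4 (hL1 : S_L1) (hL2 : S_L2) (hL3 : S_L3) (hU6 : S_U6) : S_L4 := by
  classical
  intro y σ u I k K ε M hS θ hθ0 hθ hG a
  obtain ⟨hio1, hioinj, -, -, -⟩ := hU6
  set Φ : Tree → Tree := fun t => br (σ (io t) 0) (K (io t + 1)) with hΦ
  obtain ⟨P, hPev, hPn⟩ := hL2 Φ (fun s t => hL1 y σ u I k K ε M hS s t)
  set f : Tree → D Tree := fun t => y (io t) - y (io t / 2) with hf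
  set g : D Tree := Finsupp.linearCombination ℝ es a with hg
  -- the main parts
  set Q : Tree → D Tree := fun t => ∑ i ∈ I (io t / 2), u (io t / 2) i •
    (sg (br (σ (io t) i)) (k (io t / 2)) - sg (br (σ (io t / 2) i)) (k (io t / 2))) with hQ
  have hQP : ∀ t, (Q t).comp P = es t := by
    intro t
    apply D_ext
    intro s
    rw [ContinuousLinearMap.comp_apply, hPev, es_apply, val_ev]
    have h1 : Q t (ev (Φ s)) = ∑ i ∈ I (io t / 2), u (io t / 2) i *
        (if io s = io t ∧ i = 0 then (1 : ℝ) else 0) := by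
      rw [hQ]
      change (∑ i ∈ I (io t / 2), u (io t / 2) i •
        (sg (br (σ (io t) i)) (k (io t / 2)) - sg (br (σ (io t / 2) i)) (k (io t / 2)))) (ev (Φ s)) = _
      rw [_root_.sum_apply]
      refine Finset.sum_congr rfl fun i hi => ?_
      rw [_root_.smul_apply, smul_eq_mul]
      congr 1
      exact hL3 y σ u I k K ε M hS (io s) (io t) (hio1 s) (hio1 t) i hi
    rw [h1]
    by_cases hst : s = t
    · subst hst
      rw [if_pos rfl, Finset.sum_eq_single 0]
      · rw [if_pos ⟨rfl, rfl⟩, hS.u0, mul_one]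
      · intro i _ hi
        rw [if_neg (fun h => hi h.2), mul_zero]
      · intro h0
        exact absurd (mem_zero hS _) h0
    · rw [if_neg hst]
      refine Finset.sum_eq_zero fun i _ => ?_
      rw [if_neg (fun h => hst (hioinj h.1)), mul_zero]
  have hPle : ‖P‖ ≤ 1 := by
    apply ContinuousLinearMap.opNorm_le_bound _ zero_le_one
    intro x
    rw [one_mul]
    exact hPn x
  -- the remainders
  have hR : ∀ t, ‖(f t).comp P - es t‖ ≤ ε (io t / 2) := by
    intro t
    rw [← hQP t]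
    have h1 : (f t).comp P - (Q t).comp P = (f t - Q t).comp P := ContinuousLinearMap.ext fun x => rfl
    rw [h1]
    have h2 : ‖f t - Q t‖ ≤ ε (io t / 2) := hS.apx (io t / 2) (io t) ⟨1, by rw [pow_one]⟩
    calc ‖(f t - Q t).comp P‖ ≤ ‖f t - Q t‖ * ‖P‖ := ContinuousLinearMap.opNorm_comp_le _ _
      _ ≤ ‖f t - Q t‖ * 1 := mul_le_mul_of_nonneg_left hPle (norm_nonneg _)
      _ ≤ ε (io t / 2) := by rw [mul_one]; exact h2
  -- coefficients
  have ha : ∀ t, |a t| ≤ ‖g‖ := by
    intro t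
    have h1 : g (ev t) = a t := by
      rw [hg, Finsupp.linearCombination_apply, Finsupp.sum, _root_.sum_apply]
      rw [Finset.sum_congr rfl fun s _ => by
        rw [_root_.smul_apply, smul_eq_mul, es_apply, val_ev]]
      rw [Finset.sum_congr rfl fun s _ => mul_ite _ _ _ _]
      simp only [mul_one, mul_zero]
      rw [Finset.sum_ite_eq]
      split_ifs with h
      · rfl
      · exact (Finsupp.notMem_support_iff.1 h).symm
    rw [← h1]
    calc |g (ev t)| ≤ ‖g‖ * ‖ev t‖ := g.le_opNorm _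
      _ ≤ ‖g‖ * 1 := mul_le_mul_of_nonneg_left (norm_ev t) (norm_nonneg _)
      _ = ‖g‖ := mul_one _
  -- the sum of the errors
  have hε : ∑ t ∈ a.support, ε (io t / 2) ≤ θ := by
    have h1 : ∑ t ∈ a.support, ε (io t / 2) ≤ ∑ t ∈ a.support, θ * (1 / 2) ^ (io t + 1) :=
      Finset.sum_le_sum fun t _ => (hG (io t)).2.1
    have h2 : ∑ t ∈ a.support, θ * (1 / 2 : ℝ) ^ (io t + 1) =
        ∑ n ∈ a.support.image io, θ * (1 / 2 : ℝ) ^ (n + 1) :=
      (Finset.sum_image (f := fun n : ℕ => θ * (1 / 2 : ℝ) ^ (n + 1)) (g := io)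
        (fun s _ t _ h => hioinj h)).symm
    have h3 : ∑ n ∈ a.support.image io, θ * (1 / 2 : ℝ) ^ (n + 1) ≤ ∑' n : ℕ, θ * (1 / 2 : ℝ) ^ (n + 1) := by
      refine Summable.sum_le_tsum _ (fun n _ => by positivity) ?_
      have h4 := (summable_geometric_two).mul_left (θ * (1 / 2))
      refine h4.congr fun n => ?_
      rw [pow_succ]; ring
    have h4 : ∑' n : ℕ, θ * (1 / 2 : ℝ) ^ (n + 1) = θ := by
      have h5 : ∀ n : ℕ, θ * (1 / 2 : ℝ) ^ (n + 1) = (θ * (1 / 2)) * (1 / 2) ^ n := fun n => by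
        rw [pow_succ]; ring
      simp_rw [h5]
      rw [tsum_mul_left, tsum_geometric_two]
      ring
    linarith
  -- conclusion
  set G : D Tree := Finsupp.linearCombination ℝ f a with hGd
  have hcomp : G.comp P = g + ∑ t ∈ a.support, a t • ((f t).comp P - es t) := by
    rw [hGd, hg, Finsupp.linearCombination_apply, Finsupp.linearCombination_apply, Finsupp.sum, Finsupp.sum]
    rw [← Finset.sum_add_distrib]
    ext x
    rw [ContinuousLinearMap.comp_apply, _root_.sum_apply, _root_.sum_apply]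
    refine Finset.sum_congr rfl fun t _ => ?_
    simp only [_root_.smul_apply, _root_.add_apply, _root_.sub_apply, ContinuousLinearMap.comp_apply, smul_eq_mul]
    ring
  have h1 : ‖∑ t ∈ a.support, a t • ((f t).comp P - es t)‖ ≤ θ * ‖g‖ := by
    calc ‖∑ t ∈ a.support, a t • ((f t).comp P - es t)‖
        ≤ ∑ t ∈ a.support, ‖a t • ((f t).comp P - es t)‖ := norm_sum_le _ _
      _ ≤ ∑ t ∈ a.support, ‖g‖ * ε (io t / 2) := by
          refine Finset.sum_le_sum fun t _ => ?_
          rw [norm_smul, Real.norm_eq_abs]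
          exact mul_le_mul (ha t) (hR t) (norm_nonneg _) (norm_nonneg _)
      _ = ‖g‖ * ∑ t ∈ a.support, ε (io t / 2) := by rw [Finset.mul_sum]
      _ ≤ ‖g‖ * θ := mul_le_mul_of_nonneg_left hε (norm_nonneg _)
      _ = θ * ‖g‖ := mul_comm _ _
  have h2 : ‖G.comp P‖ ≤ ‖G‖ := by
    calc ‖G.comp P‖ ≤ ‖G‖ * ‖P‖ := ContinuousLinearMap.opNorm_comp_le _ _
      _ ≤ ‖G‖ * 1 := mul_le_mul_of_nonneg_left hPle (norm_nonneg _)
      _ = ‖G‖ := mul_one _
  have h3 : ‖g‖ ≤ ‖G.comp P‖ + ‖∑ t ∈ a.support, a t • ((f t).comp P - es t)‖ := by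
    have h4 : g = G.comp P - ∑ t ∈ a.support, a t • ((f t).comp P - es t) := by
      rw [hcomp, add_sub_cancel_right]
    calc ‖g‖ = ‖G.comp P - ∑ t ∈ a.support, a t • ((f t).comp P - es t)‖ := by rw [← h4]
      _ ≤ _ := norm_sub_le _ _
  have h5 : θ * ‖g‖ ≤ 1 / 2 * ‖g‖ := mul_le_mul_of_nonneg_right hθ (norm_nonneg _)
  linarith

end Pool.Agent.Run7.h56.JT
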